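import Pool.Agent.R754.KG.H

/-!
# The KLS inequality for marginals of bodies fibred over a base of bounded dimension

Q1, for sets `S` of measure one half, for the laws of all linear images (marginals, in any
dimension) of the uniform measures on the bodies of a class which is closed under the following
operation. Let `K ⊂ ℝ^N × ℝ^d` be a convex body, `N` arbitrary, such that the fibres
`K_t = {x | (x, t) ∈ K}`, `t ∈ ℝ^d`, which have positive volume belong to the class and are
diagonally related to each other: `K_t` is the image of `K_s` under a translation and a map which is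
diagonal with positive entries in coordinates which are uncorrelated for the uniform measure on
`K_s`. Then `K` is in the class. There is no condition on the base (an arbitrary convex body in
`ℝ^d`) nor on the dependence of the fibres on `t`, except the convexity of `K`. The constant of the
inequality depends on `d` and on the constant for the fibres, not on `N`. The class is also closed
under projections with kernels of bounded dimension, and it contains the bodies of
`ImagesOfSections` (polytopes with at most `m + q` facets, `ℓ_p` balls and their sections of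
codimension `q`).

Special cases, with constants which depend only on `d`:
* `ellipsoids`: all convex bodies in `ℝ^N × ℝ^d` whose fibres over `ℝ^d` are ellipsoids, of
  arbitrary centres, shapes and directions;
* `boxes`: all convex bodies whose fibres over `ℝ^d` are boxes with edges parallel to the axes; in
  particular (`cylinders`) all sets `{(x, t) | (x_i, t) ∈ D_i for i < N}`, where the `D_i` are
  arbitrary convex bodies in `ℝ × ℝ^d`, for instance polytopes with arbitrarily many facets;
* `homothetic`: all convex bodies whose fibres are homothetic to a fixed body of the class.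

The laws of linear images of uniform measures on convex bodies are log-concave. For instance the
density `∏_{i < N} g_i(t)`, with concave functions `g_i ≥ 0` on a convex body in `ℝ^d`, is a
marginal of the body `{(x, t) | 0 ≤ x_i ≤ g_i(t)}`.

Method. Let `S` be the largest volume of a fibre. (1) If `K_t` is the image of `K_s` under
`v + A⁻¹ diag(λ) A`, then the fibre over `(s + t) / 2` contains the image of `K_s` under the map
with the diagonal `(1 + λ) / 2`, so its volume is at least `∏ (1 + λ_i) / (2 √λ_i)` times the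
geometric mean of the volumes. Hence for fibres of volume at least `ε S` one has
`∑ ((λ_i - 1) / (λ_i + 1))² ≤ 2 log (1 / ε)`; and the part of `K` over the set of `t` where the
volume is less than `ε S` has relative volume at most `√(2 ε) 2^d`. (2) By the same map, the second
moment of an affine function on a fibre of volume at least `ε S` is at most `8 · 2^d / √ε + 2`
times its second moment on `K`. (3) So, for a linear image of `K` with covariance at most `s`, the
map between two such fibres moves the points, in the mean square, by at most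
`4 (1 + 2 log (1 / ε)) (8 · 2^d / √ε + 2) s`: the diagonal directions are uncorrelated, and the
displacement in the direction `i` is the number `(λ_i - 1) / (λ_i + 1)` times the sum of the
standard deviations. (4) Hence the means of a Lipschitz function over the fibres are nearly equal,
and with the concentration in the fibres it is concentrated in `K`. (5) Concentration on a constant
scale for all linear images is inherited by images of corank `r`, holds for the bodies at the bottom
of the construction, and implies the isoperimetric inequality for sets of measure one half, for all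
linear images (`ImagesOfSections` of the starting files).
-/

set_option autoImplicit false

namespace Pool.Agent.Results.MP_6d896a_gt.FibredBodies

open MeasureTheory Set
open scoped ENNReal InnerProductSpace

/-- Euclidean space of dimension `n` -/
abbrev Euc (n : ℕ) : Type := EuclideanSpace ℝ (Fin n)

/-- convex body `D = -D`: compact, convex, symmetric, with nonempty interior -/
structure SymmetricBody {k : ℕ} (D : Set (Euc k)) : Prop where
  conv : Convex ℝ D
  comp : IsCompact D
  int : (interior D).Nonempty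
  symm : ∀ x ∈ D, -x ∈ D

/-- `a (s₊)^p + b (s₋)^p`, where `a, b ∈ [0, ∞]` and `∞ · 0 = 0` -/
noncomputable def power (p : ℝ) (a b : ℝ≥0∞) (s : ℝ) : ℝ≥0∞ :=
  a * ENNReal.ofReal (max s 0 ^ p) + b * ENNReal.ofReal (max (-s) 0 ^ p)

/-- `K = {x | ⟪v_i, x⟫ ∈ I_i for all i < N}` with closed intervals `I_i` (which may be unbounded),
`N ≤ m + q`: intersections of `m + q` halfspaces or slabs in `ℝ^m` -/
def Slabs (q : ℕ) {m : ℕ} (K : Set (Euc m)) : Prop :=
  ∃ (N : ℕ) (v : Fin N → Euc m) (I : Fin N → Set ℝ), N ≤ m + q ∧ (∀ i, IsClosed (I i)) ∧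
    (∀ i, (I i).OrdConnected) ∧ K = {x | ∀ i, ⟪v i, x⟫_ℝ ∈ I i}

/-- `K = {x | ∑_{i < N} (a_i ⟪v_i, x⟫₊^p + b_i ⟪v_i, x⟫₋^p) ≤ 1}`, `a_i, b_i ∈ [0, ∞]`, `N ≤ m + q` -/
def Sums (p : ℝ) (q : ℕ) {m : ℕ} (K : Set (Euc m)) : Prop :=
  ∃ (N : ℕ) (v : Fin N → Euc m) (a b : Fin N → ℝ≥0∞), N ≤ m + q ∧
    K = {x | ∑ i, power p (a i) (b i) ⟪v i, x⟫_ℝ ≤ 1}

/-- `K = {x | ∑_{j < k_i} |ℓ_ij(x)|^{e_ij} ≤ 1 for all i < M}`, `e_ij ≥ 2`, `∑ k_i ≤ m + q` -/
def Powers (q : ℕ) {m : ℕ} (K : Set (Euc m)) : Prop :=
  ∃ (M : ℕ) (k : Fin M → ℕ) (e : ∀ i, Fin (k i) → ℝ) (l : ∀ i, Fin (k i) → (Euc m →ₗ[ℝ] ℝ)),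
    (∀ i, 1 ≤ k i) ∧ ∑ i, k i ≤ m + q ∧ (∀ i j, 2 ≤ e i j) ∧
    K = {x | ∀ i, ∑ j, |l i j x| ^ e i j ≤ 1}

/-- `K = {x | Q_i x ∈ D_i for all i < M}` with linear maps `Q_i : ℝ^m → ℝ^{k_i}` and symmetric convex
bodies `D_i`, `k_i ≤ B`, `∑ k_i ≤ m + q` -/
def Blocks (B q : ℕ) {m : ℕ} (K : Set (Euc m)) : Prop :=
  ∃ (M : ℕ) (k : Fin M → ℕ) (Q : ∀ i, Euc m →ₗ[ℝ] Euc (k i)) (D : ∀ i, Set (Euc (k i))),
    (∀ i, k i ≤ B) ∧ ∑ i, k i ≤ m + q ∧ (∀ i, SymmetricBody (D i)) ∧ K = {x | ∀ i, Q i x ∈ D i}

/-- the bodies at the bottom of the construction: bounded, with nonempty interior, and of one of the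
four kinds `Slabs`, `Sums`, `Powers`, `Blocks`, with at most `q` functionals more than the
dimension (for instance cubes, Euclidean balls, simplices, polytopes with few facets) -/
structure Section (B q : ℕ) (p : ℝ) {m : ℕ} (K : Set (Euc m)) : Prop where
  bdd : Bornology.IsBounded K
  int : (interior K).Nonempty
  rep : Slabs q K ∨ Sums p q K ∨ Powers q K ∨ Blocks B q K

/-- the uniform probability measure on `K` -/
noncomputable def unif {n : ℕ} (K : Set (Euc n)) : Measure (Euc n) :=
  (volume K)⁻¹ • volume.restrict K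

/-- `C₀` and `C₁` are diagonally related: in the coordinates given by some linear bijection `A` of
`ℝ^N`, `C₁` is the image of `C₀` under a diagonal matrix with positive entries `λ_i` and a
translation, that is `C₁ = {v + A⁻¹ diag(λ) A x | x ∈ C₀}`, and the coordinates `(A x)_i` of a point
`x` uniformly distributed in `C₀` are uncorrelated. For example, `C₀` and `C₁` may be homothetic, or
boxes with parallel edges, or arbitrary ellipsoids. -/
def Related {N : ℕ} (C₀ C₁ : Set (Euc N)) : Prop :=
  ∃ (A : Euc N ≃ₗ[ℝ] Euc N) (v : Euc N) (lam : Fin N → ℝ), (∀ i, 0 < lam i) ∧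
    C₁ = (fun x => v + A.symm (WithLp.toLp 2 fun i => lam i * A x i)) '' C₀ ∧
    ∀ i j, i ≠ j → ∫ x, A x i * A x j ∂(unif C₀) =
      (∫ x, A x i ∂(unif C₀)) * ∫ x, A x j ∂(unif C₀)

/-- the fibre over `t` of the set `K ⊂ ℝⁿ ≅ ℝ^N × ℝ^d` -/
def fibre {N d n : ℕ} (e : (Euc N × Euc d) ≃ₗ[ℝ] Euc n) (K : Set (Euc n)) (t : Euc d) :
    Set (Euc N) := {x | e (x, t) ∈ K}

/-- The class of bodies. It contains the bodies `Section B q p`, and bodies of depth `h + 1` are
obtained from those of depth `h` by images under affine maps with kernels of dimension at most `r`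
(`image`) and by fibration over a base of dimension at most `d` (`fibred`): all convex bodies
`K ⊂ ℝ^N × ℝ^j`, `j ≤ d`, whose fibres over the points of `ℝ^j` are, except for those of volume
zero, of depth `h` and diagonally related to each other. -/
inductive Tower (q B : ℕ) (p : ℝ) (d r : ℕ) : ℕ → ∀ {n : ℕ}, Set (Euc n) → Prop
  | base {m : ℕ} {K : Set (Euc m)} : Section B q p K → Tower q B p d r 0 K
  | up {h n : ℕ} {K : Set (Euc n)} : Tower q B p d r h K → Tower q B p d r (h + 1) K
  | image {h m n : ℕ} {K : Set (Euc m)} (T : Euc m →ᵃ[ℝ] Euc n) : m ≤ n + r →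
      Function.Surjective T → Tower q B p d r h K → Tower q B p d r (h + 1) (T '' K)
  | fibred {h N j n : ℕ} {K : Set (Euc n)} (e : (Euc N × Euc j) ≃ₗ[ℝ] Euc n) : j ≤ d →
      IsCompact K → Convex ℝ K → (interior K).Nonempty →
      (∀ t, volume (fibre e K t) ≠ 0 → Tower q B p d r h (fibre e K t)) →
      (∀ s t, volume (fibre e K s) ≠ 0 → volume (fibre e K t) ≠ 0 →
        Related (fibre e K s) (fibre e K t)) → Tower q B p d r (h + 1) K

/-- the boundary measure `μ⁺(S)`, the lower limit of `(μ(S_ε) - μ(S)) / ε` for the open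
neighbourhoods `S_ε` of `S` -/
noncomputable def bdry {n : ℕ} (μ : Measure (Euc n)) (S : Set (Euc n)) : ℝ≥0∞ :=
  Filter.liminf (fun ε : ℝ => (μ (Metric.thickening ε S) - μ S) / ENNReal.ofReal ε)
    (nhdsWithin 0 (Set.Ioi 0))

/-- `μ⁺(S) √s ≥ c min(μ S, μ Sᶜ)` for all measurable sets `S` of measure one half and for every bound
`s` of the variances of the marginals of `μ` in directions of length one -/
def KLSHalf {n : ℕ} (c : ℝ) (μ : Measure (Euc n)) : Prop :=
  ∀ s : ℝ, 0 < s →
    (∀ θ : Euc n, ‖θ‖ = 1 → ProbabilityTheory.variance (fun x => ⟪x, θ⟫_ℝ) μ ≤ s) →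
    ∀ S : Set (Euc n), MeasurableSet S → μ S = 1 / 2 →
      ENNReal.ofReal (c / Real.sqrt s) * min (μ S) (μ Sᶜ) ≤ bdry μ S

/-- all linear images `μ` of the uniform measure on `K` satisfy `KLSHalf c μ` -/
def ImagesKLS {m : ℕ} (c : ℝ) (K : Set (Euc m)) : Prop :=
  ∀ (n : ℕ) (L : Euc m →ₗ[ℝ] Euc n) (μ : Measure (Euc n)), μ = Measure.map L (unif K) →
    IsProbabilityMeasure μ ∧ KLSHalf c μ

theorem base_of {B q : ℕ} {p : ℝ} {m : ℕ} {K : Set (Euc m)} (h : Section B q p K) :
    Pool.Agent.Y506.PV.Base q B p K := by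
  refine ⟨h.bdd, h.int, ?_⟩
  rcases h.rep with h | h | h | h
  · obtain ⟨N, v, I, hN, hI1, hI2, hK⟩ := h
    exact Or.inl ⟨N, hN, v, I, hI1, hI2, hK⟩
  · obtain ⟨N, v, a, b, hN, hK⟩ := h
    exact Or.inr (Or.inl ⟨N, hN, v, a, b, hK⟩)
  · obtain ⟨M, k, e, l, hk, hs, he, hK⟩ := h
    refine Or.inr (Or.inr (Or.inl ⟨M, k, hs, hk, e, fun i j =>
      LinearMap.toContinuousLinearMap (l i j), he, ?_⟩))
    rw [hK]
    rfl
  · obtain ⟨M, k, Q, D, hk, hs, hD, hK⟩ := h
    refine Or.inr (Or.inr (Or.inr ⟨M, k, hs, hk, fun i => LinearMap.toContinuousLinearMap (Q i),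
      D, fun i => ⟨(hD i).comp.measurableSet, (hD i).conv, (hD i).comp.isBounded, (hD i).symm,
        (hD i).int⟩, fun i => (hD i).comp.isClosed, ?_⟩))
    rw [hK]
    rfl

theorem rel_of {N : ℕ} {C₀ C₁ : Set (Euc N)} (h : Related C₀ C₁) :
    Pool.Agent.R754.KG.Rel C₀ C₁ := by
  obtain ⟨A, v, lam, h1, h2, h3⟩ := h
  exact ⟨A, v, lam, h1, h2, h3⟩

theorem of_rel {N : ℕ} {C₀ C₁ : Set (Euc N)} (h : Pool.Agent.R754.KG.Rel C₀ C₁) :
    Related C₀ C₁ := by
  obtain ⟨A, v, lam, h1⟩ := h
  exact ⟨A, v, lam, h1.pos, h1.eq, h1.unc⟩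

theorem cl_of {q B : ℕ} {p : ℝ} {d r h n : ℕ} {K : Set (Euc n)} (H : Tower q B p d r h K) :
    Pool.Agent.R754.KG.Cl q B p d r h n K := by
  induction H with
  | base hK => exact .base _ _ (base_of hK)
  | up _ ih => exact .up _ _ _ ih
  | image T hm hT _ ih =>
    have hTL : ∀ x, T x = T 0 + T.linear x := fun x => by
      have h := T.map_vadd 0 x
      rw [vadd_eq_add, add_zero] at h
      rw [h, vadd_eq_add, add_comm]
    have hA : Function.Surjective T.linear := by
      rwa [AffineMap.linear_surjective_iff]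
    have h2 := Pool.Agent.R754.KG.Cl.image _ _ _ _ T.linear (T 0) hm hA ih
    rw [image_congr fun x _ => hTL x]
    exact h2
  | fibred e hj hc hcv hi _ hrel ih =>
    exact .fibred _ _ _ _ _ e hj hc hcv hi ih fun s t hs ht => rel_of (hrel s t hs ht)

/-- from the functional inequality to all linear images -/
theorem images_of {m : ℕ} {K : Set (Euc m)} (hK : IsCompact K) (hi : (interior K).Nonempty)
    {c : ℝ} (hc : 0 < c) (hs : Pool.Agent.Y506.RG.Star c (Pool.Agent.Y506.PV.ind K)) (n : ℕ)
    (L : Euc m →ₗ[ℝ] Euc n) : IsProbabilityMeasure (Measure.map L (unif K)) ∧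
      KLSHalf (1 / (4 * c)) (Measure.map L (unif K)) := by
  have hA := Pool.Agent.Y506.PV.adm_ind K hK.measurableSet hK.isBounded
    (Pool.Agent.Y506.PV.vol_pos hi)
  have h := Pool.Agent.Y506.RG.half_of_star Pool.Agent.Y429.RG.minkm hA c hc hs n L
    (Measure.map L (Pool.Agent.Y506.RG.pm (Pool.Agent.Y506.PV.ind K))) rfl
  rw [Pool.Agent.Y506.PV.pm_ind K hK.measurableSet] at h
  obtain ⟨hp, H⟩ := h
  have hp' : IsProbabilityMeasure (Measure.map L (unif K)) := hp
  refine ⟨hp', fun s hs hvar S hS hS2 => ?_⟩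
  refine le_trans ?_ (H s hs hvar S hS2)
  calc _ ≤ ENNReal.ofReal (1 / (4 * c) / Real.sqrt s) * 1 :=
        mul_le_mul_right ((min_le_left _ _).trans prob_le_one) _
    _ = _ := mul_one _

/-- **KLS for the marginals of fibred bodies.** For all `q, B, d, r, h` and `p ≥ 1` there is a
constant `c > 0` such that for all `m`, all bodies `K ⊂ ℝ^m` of the class `Tower q B p d r h` and all
linear maps `L : ℝ^m → ℝⁿ`, the law `μ` of `L x`, `x` uniform on `K`, is a probability measure with
`μ⁺(S) √‖A‖ ≥ c min(μ S, μ Sᶜ)` for all measurable `S` with `μ S = 1/2`, where `A` is the covariance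
matrix of `μ`. -/
theorem result : ∀ (q B d r h : ℕ) (p : ℝ), 1 ≤ p → ∃ c : ℝ, 0 < c ∧
    ∀ (m : ℕ) (K : Set (Euc m)), Tower q B p d r h K → ImagesKLS c K := by
  intro q B d r h p hp
  obtain ⟨c, hc, H⟩ := Pool.Agent.R754.KG.cl_star q B p hp d r h
  refine ⟨1 / (4 * c), by positivity, fun m K hK n L μ hμ => ?_⟩
  obtain ⟨h1, h2, h3, h4⟩ := H m K (cl_of hK)
  rw [hμ]
  exact images_of h1 h3 hc h4 n L

/-! ### special cases -/

/-- ellipsoids: images of the unit ball under affine bijections -/
def IsEllipsoid {N : ℕ} (C : Set (Euc N)) : Prop :=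
  ∃ (m : Euc N) (M : Euc N ≃ₗ[ℝ] Euc N), C = (fun x => m + M x) '' Metric.closedBall 0 1

/-- boxes with edges parallel to the axes -/
def IsBox {N : ℕ} (C : Set (Euc N)) : Prop :=
  ∃ a b : Fin N → ℝ, (∀ i, a i < b i) ∧ C = {x | ∀ i, a i ≤ x i ∧ x i ≤ b i}

theorem ball_section {N : ℕ} : Section 0 0 2 (Metric.closedBall (0 : Euc N) 1) := by
  refine ⟨Metric.isBounded_closedBall, ?_, Or.inr (Or.inl ⟨N, fun i => EuclideanSpace.single i 1,
    fun _ => 1, fun _ => 1, le_rfl, ?_⟩)⟩
  · rw [interior_closedBall _ one_ne_zero]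
    exact ⟨0, by simp⟩
  · ext x
    have h1 : ∀ s : ℝ, power 2 1 1 s = ENNReal.ofReal (s ^ 2) := by
      intro s
      unfold power
      rw [one_mul, one_mul, ← ENNReal.ofReal_add (by positivity) (by positivity)]
      congr 1
      rcases le_total 0 s with hs | hs
      · rw [max_eq_left hs, max_eq_right (by linarith)]
        norm_num
      · rw [max_eq_right hs, max_eq_left (by linarith)]
        norm_num
    have h2 : ∑ i : Fin N, power 2 1 1 ⟪EuclideanSpace.single i (1 : ℝ), x⟫_ℝ =
        ENNReal.ofReal (‖x‖ ^ 2) := by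
      rw [EuclideanSpace.real_norm_sq_eq, ENNReal.ofReal_sum_of_nonneg fun i _ => sq_nonneg _]
      refine Finset.sum_congr rfl fun i _ => ?_
      rw [h1, EuclideanSpace.inner_single_left]
      simp
    rw [mem_closedBall_zero_iff, mem_ofPred_eq, h2, ENNReal.ofReal_le_one]
    exact (sq_le_one_iff₀ (norm_nonneg x)).symm

/-- **Ellipsoidal fibres.** For every `d` there is `c > 0` such that all convex bodies
`K ⊂ ℝⁿ ≅ ℝ^N × ℝ^d`, of any dimension, whose fibres over the points of `ℝ^d` are ellipsoids (or of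
volume zero), satisfy the inequality, with all their linear images. -/
theorem ellipsoids : ∀ d : ℕ, ∃ c : ℝ, 0 < c ∧ ∀ (N n : ℕ) (e : (Euc N × Euc d) ≃ₗ[ℝ] Euc n)
    (K : Set (Euc n)), IsCompact K → Convex ℝ K → (interior K).Nonempty →
    (∀ t, volume (fibre e K t) = 0 ∨ IsEllipsoid (fibre e K t)) → ImagesKLS c K := by
  intro d
  obtain ⟨c, hc, H⟩ := result 0 0 d 0 2 2 (by norm_num)
  refine ⟨c, hc, fun N n e K h1 h2 h3 h4 => H n K (.fibred e le_rfl h1 h2 h3 ?_ ?_)⟩
  · intro t ht
    obtain ⟨m, M, hC⟩ := (h4 t).resolve_left ht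
    have h5 := Tower.image (q := 0) (B := 0) (p := 2) (d := d) (r := 0) (h := 0)
      (M.toLinearMap.toAffineMap + AffineMap.const ℝ (Euc N) m) le_rfl (fun y => by
        obtain ⟨z, hz⟩ := M.surjective (y - m)
        exact ⟨z, by simp [hz]⟩) (.base ball_section)
    rw [hC]
    convert h5 using 1
    refine image_congr fun x _ => ?_
    simp [add_comm]
  · intro s t hs ht
    obtain ⟨m, M, hC⟩ := (h4 s).resolve_left hs
    obtain ⟨m', M', hC'⟩ := (h4 t).resolve_left ht
    rw [hC, hC']
    exact of_rel (Pool.Agent.R754.KG.rel_ell m m' M M')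

theorem box_section {N : ℕ} {C : Set (Euc N)} (h : IsBox C) : Section 0 0 1 C := by
  obtain ⟨a, b, hab, rfl⟩ := h
  refine ⟨Pool.Agent.R754.KG.bx_bdd a b, ?_, Or.inl ⟨N, fun i => EuclideanSpace.single i 1,
    fun i => Icc (a i) (b i), le_rfl, fun i => isClosed_Icc, fun i => ordConnected_Icc, ?_⟩⟩
  · have hop : IsOpen {x : Euc N | ∀ i, a i < x i ∧ x i < b i} := by
      have : {x : Euc N | ∀ i, a i < x i ∧ x i < b i} = ⋂ i, {x : Euc N | a i < x i ∧ x i < b i} := by
        ext x
        simp
      rw [this]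
      refine isOpen_iInter_of_finite fun i => ?_
      have hc : Continuous fun x : Euc N => x i := by fun_prop
      exact (isOpen_lt continuous_const hc).inter (isOpen_lt hc continuous_const)
    refine ⟨WithLp.toLp 2 fun i => (a i + b i) / 2, interior_maximal ?_ hop ?_⟩
    · intro x hx i
      exact ⟨(hx i).1.le, (hx i).2.le⟩
    · intro i
      have := hab i
      constructor
      · simp only
        linarith
      · simp only
        linarith
  · ext x
    simp only [mem_ofPred_eq, EuclideanSpace.inner_single_left, mem_Icc]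
    simp

/-- **Boxes.** For every `d` there is `c > 0` such that all convex bodies `K ⊂ ℝⁿ ≅ ℝ^N × ℝ^d`, of
any dimension, whose fibres over the points of `ℝ^d` are boxes with edges parallel to the axes (or
of volume zero), satisfy the inequality, with all their linear images. -/
theorem boxes : ∀ d : ℕ, ∃ c : ℝ, 0 < c ∧ ∀ (N n : ℕ) (e : (Euc N × Euc d) ≃ₗ[ℝ] Euc n)
    (K : Set (Euc n)), IsCompact K → Convex ℝ K → (interior K).Nonempty →
    (∀ t, volume (fibre e K t) = 0 ∨ IsBox (fibre e K t)) → ImagesKLS c K := by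
  intro d
  obtain ⟨c, hc, H⟩ := result 0 0 d 0 1 1 le_rfl
  refine ⟨c, hc, fun N n e K h1 h2 h3 h4 => H n K (.fibred e le_rfl h1 h2 h3 ?_ ?_)⟩
  · intro t ht
    exact .base (box_section ((h4 t).resolve_left ht))
  · intro s t hs ht
    obtain ⟨a, b, hab, hC⟩ := (h4 s).resolve_left hs
    obtain ⟨a', b', hab', hC'⟩ := (h4 t).resolve_left ht
    rw [hC] at hs
    rw [hC, hC']
    exact of_rel (Pool.Agent.R754.KG.rel_bx hab hab' hs)

/-- **Intersections of cylinders.** For every `d` there is `c > 0` such that, for all `N` and all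
compact convex sets `D_i ⊂ ℝ × ℝ^d`, `i < N`, the set `{(x, t) | (x_i, t) ∈ D_i for all i < N}` in
`ℝ^N × ℝ^d ≅ ℝⁿ` satisfies the inequality, with all its linear images, if it is compact (which it is for `N ≥ 1`) and has
nonempty interior. -/
theorem cylinders : ∀ d : ℕ, ∃ c : ℝ, 0 < c ∧ ∀ (N n : ℕ) (e : (Euc N × Euc d) ≃ₗ[ℝ] Euc n)
    (D : Fin N → Set (ℝ × Euc d)), (∀ i, IsCompact (D i)) → (∀ i, Convex ℝ (D i)) →
    IsCompact (e '' {z | ∀ i, (z.1 i, z.2) ∈ D i}) →
    (interior (e '' {z | ∀ i, (z.1 i, z.2) ∈ D i})).Nonempty →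
    ImagesKLS c (e '' {z | ∀ i, (z.1 i, z.2) ∈ D i}) := by
  intro d
  obtain ⟨c, hc, H⟩ := boxes d
  refine ⟨c, hc, fun N n e D hD hcv hcp hint => H N n e _ hcp ?_ hint fun t => ?_⟩
  · refine Convex.is_linear_image ?_ e.toLinearMap.isLinear
    intro z hz z' hz' a b ha hb hab i
    exact hcv i (hz i) (hz' i) ha hb hab
  · by_cases ht : volume (fibre e (e '' {z | ∀ i, (z.1 i, z.2) ∈ D i}) t) = 0
    · exact Or.inl ht
    refine Or.inr ?_
    have hf : fibre e (e '' {z | ∀ i, (z.1 i, z.2) ∈ D i}) t = {x | ∀ i, (x i, t) ∈ D i} := by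
      ext x
      unfold fibre
      rw [mem_ofPred_eq, e.injective.mem_set_image]
      rfl
    rw [hf] at ht ⊢
    -- the intervals
    have hcl : ∀ i, IsCompact {s : ℝ | (s, t) ∈ D i} := by
      intro i
      have h1 : IsClosed {s : ℝ | (s, t) ∈ D i} :=
        (hD i).isClosed.preimage (by fun_prop : Continuous fun s : ℝ => (s, t))
      have h2 : Bornology.IsBounded {s : ℝ | (s, t) ∈ D i} :=
        (hD i).isBounded.image_fst.subset fun s hs => ⟨(s, t), hs, rfl⟩
      exact Metric.isCompact_of_isClosed_isBounded h1 h2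
    have hconv : ∀ i, Convex ℝ {s : ℝ | (s, t) ∈ D i} := by
      intro i s hs s' hs' a b ha hb hab
      have h1 := hcv i hs hs' ha hb hab
      have h2 : a • (s, t) + b • (s', t) = (a • s + b • s', t) := by
        refine Prod.ext rfl ?_
        change a • t + b • t = t
        rw [← add_smul, hab, one_smul]
      rw [h2] at h1
      exact h1
    have hcvx : Convex ℝ {x : Euc N | ∀ i, (x i, t) ∈ D i} := by
      intro x hx y hy a b ha hb hab i
      exact hconv i (hx i) (hy i) ha hb hab
    have hint2 : (interior {x : Euc N | ∀ i, (x i, t) ∈ D i}).Nonempty := by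
      by_contra hne
      rw [not_nonempty_iff_eq_empty] at hne
      have h1 := hcvx.addHaar_frontier (volume : Measure (Euc N))
      have h2 : {x : Euc N | ∀ i, (x i, t) ∈ D i} ⊆ frontier {x : Euc N | ∀ i, (x i, t) ∈ D i} := by
        intro x hx
        rw [frontier, hne, sdiff_empty]
        exact subset_closure hx
      exact ht (measure_mono_null h2 h1)
    obtain ⟨x0, hx0⟩ := hint2
    obtain ⟨ε, hε, hball⟩ := Metric.isOpen_iff.1 isOpen_interior x0 hx0
    have hmem : ∀ (s : ℝ), |s| < ε → ∀ i, (x0 i + s, t) ∈ D i := by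
      intro s hs i
      have h1 : x0 + EuclideanSpace.single i s ∈ Metric.ball x0 ε := by
        rw [Metric.mem_ball, dist_self_add_left]
        simpa using hs
      have h2 := interior_subset (hball h1) i
      simpa using h2
    have hne : ∀ i, {s : ℝ | (s, t) ∈ D i}.Nonempty := fun i =>
      ⟨x0 i + 0, hmem 0 (by simpa using hε) i⟩
    refine ⟨fun i => sInf {s : ℝ | (s, t) ∈ D i}, fun i => sSup {s : ℝ | (s, t) ∈ D i},
      fun i => ?_, ?_⟩
    · have h1 : x0 i + -(ε / 2) ∈ {s : ℝ | (s, t) ∈ D i} :=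
        hmem _ (by rw [abs_neg, abs_of_pos (by positivity)]; linarith) i
      have h2 : x0 i + ε / 2 ∈ {s : ℝ | (s, t) ∈ D i} :=
        hmem _ (by rw [abs_of_pos (by positivity)]; linarith) i
      have h3 := csInf_le (hcl i).bddBelow h1
      have h4 := le_csSup (hcl i).bddAbove h2
      simp only
      linarith
    · ext x
      refine forall_congr' fun i => ?_
      have h1 : {s : ℝ | (s, t) ∈ D i} = Icc (sInf {s : ℝ | (s, t) ∈ D i})
          (sSup {s : ℝ | (s, t) ∈ D i}) :=
        eq_Icc_of_connected_compact ⟨hne i, (hconv i).isPreconnected⟩ (hcl i)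
      change x i ∈ {s : ℝ | (s, t) ∈ D i} ↔ _
      constructor
      · intro hx
        rw [h1] at hx
        exact hx
      · intro hx
        rw [h1]
        exact hx

/-- **Homothetic fibres.** For every body `L` of the class, all convex bodies
`K ⊂ ℝⁿ ≅ ℝ^N × ℝ^d` whose fibres over the points of `ℝ^d` are homothetic to `L` (or of volume
zero) satisfy the inequality, with all their linear images, with a constant which depends only on the parameters of the class. -/
theorem homothetic : ∀ (q B d r h : ℕ) (p : ℝ), 1 ≤ p → ∃ c : ℝ, 0 < c ∧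
    ∀ (N n : ℕ) (L : Set (Euc N)) (e : (Euc N × Euc d) ≃ₗ[ℝ] Euc n) (K : Set (Euc n)),
    Tower q B p d r h L → IsCompact K → Convex ℝ K → (interior K).Nonempty →
    (∀ t, volume (fibre e K t) = 0 ∨
      ∃ (v : Euc N) (ρ : ℝ), 0 < ρ ∧ fibre e K t = (fun x => v + ρ • x) '' L) → ImagesKLS c K := by
  intro q B d r h p hp
  obtain ⟨c, hc, H⟩ := result q B d r (h + 1 + 1) p hp
  obtain ⟨κ, hκ, Hcl⟩ := Pool.Agent.R754.KG.cl_cc q B p hp d r (h + 1) 1 one_pos
  refine ⟨c, hc, fun N n L e K hL h1 h2 h3 h4 => H n K ?_⟩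
  have hT : ∀ t, volume (fibre e K t) ≠ 0 → Tower q B p d r (h + 1) (fibre e K t) := by
    intro t ht
    obtain ⟨v, ρ, hρ, hC⟩ := (h4 t).resolve_left ht
    have h5 := Tower.image (q := q) (B := B) (p := p) (d := d) (r := r) (h := h)
      ((ρ • LinearMap.id : Euc N →ₗ[ℝ] Euc N).toAffineMap + AffineMap.const ℝ (Euc N) v)
      (Nat.le_add_right N r) (fun y => ⟨ρ⁻¹ • (y - v), by simp [smul_smul, hρ.ne']⟩) hL
    rw [hC]
    convert h5 using 1
    refine image_congr fun x _ => ?_
    simp [add_comm]
  refine .fibred e le_rfl h1 h2 h3 hT fun s t hs ht => ?_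
  obtain ⟨g1, -, g3, -⟩ := Hcl _ _ (cl_of (hT s hs))
  obtain ⟨v, ρ, hρ, hC⟩ := (h4 s).resolve_left hs
  obtain ⟨v', ρ', hρ', hC'⟩ := (h4 t).resolve_left ht
  have key := Pool.Agent.R754.KG.rel_hom g1 g3 (v' - (ρ' / ρ) • v) (ρ' / ρ) (by positivity)
  have e1 : fibre e K t = (fun x => (v' - (ρ' / ρ) • v) + (ρ' / ρ) • x) '' fibre e K s := by
    rw [hC, hC', image_image]
    refine image_congr fun x _ => ?_
    rw [smul_add, smul_smul, div_mul_cancel₀ _ hρ.ne']
    abel
  rw [← e1] at key
  exact of_rel key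

end Pool.Agent.Results.MP_6d896a_gt.FibredBodies
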