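import Pool.Agent.R754.KG.H

/-!
# The hyperplane conjecture for symmetric bodies fibred over a base of bounded dimension

Q1 for the symmetric bodies of a class of convex bodies which is closed under the following
operation. Let `K ⊂ ℝ^N × ℝ^d` be a convex body, `N` arbitrary, such that the fibres
`K_t = {x | (x, t) ∈ K}`, `t ∈ ℝ^d`, which have positive volume belong to the class and are
diagonally related to each other: `K_t` is the image of `K_s` under a translation and a map which is
diagonal with positive entries in coordinates which are uncorrelated for the uniform measure on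
`K_s`. Then `K` is in the class. There is no condition on the base (an arbitrary convex body in
`ℝ^d`) nor on the dependence of the fibres on `t`, except the convexity of `K`; the fibres need not
be symmetric. The constant of the inequality depends on `d` and on the constant for the fibres, not
on `N`. The class is also closed under projections with kernels of bounded dimension, and it
contains the bodies of `ImagesOfSections` (polytopes with at most `n + q` facets, `ℓ_p` balls and
their sections of codimension `q`).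

Special cases, with constants which depend only on `d`:
* `ellipsoids`: all symmetric convex bodies in `ℝ^N × ℝ^d` whose fibres over `ℝ^d` are ellipsoids,
  of arbitrary centres, shapes and directions;
* `boxes`: all symmetric convex bodies whose fibres over `ℝ^d` are boxes with edges parallel to the
  axes; in particular (`cylinders`) all sets `{(x, t) | (x_i, t) ∈ D_i for i < N}`, where the `D_i`
  are arbitrary symmetric convex bodies in `ℝ × ℝ^d`;
* `homothetic`: all symmetric convex bodies whose fibres are homothetic to a fixed body of the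
  class.

Method. Let `S` be the largest volume of a fibre. (1) If `K_t` is the image of `K_s` under
`v + A⁻¹ diag(λ) A`, then the fibre over `(s + t) / 2` contains the image of `K_s` under the map
with the diagonal `(1 + λ) / 2`, so its volume is at least `∏ (1 + λ_i) / (2 √λ_i)` times the
geometric mean of the volumes. Hence for fibres of volume at least `ε S` one has
`∑ ((λ_i - 1) / (λ_i + 1))² ≤ 2 log (1 / ε)`; and the part of `K` over the set of `t` where the
volume is less than `ε S` has relative volume at most `√(2 ε) 2^d`. (2) By the same map, the second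
moment of an affine function on a fibre of volume at least `ε S` is at most `8 · 2^d / √ε + 2`
times its second moment on `K`. (3) So, for a linear image of `K` with covariance at most `s`, the
map between two such fibres moves the points, in the mean square, by at most
`4 (1 + 2 log (1 / ε)) (8 · 2^d / √ε + 2) s`: the diagonal directions are uncorrelated, and the
displacement in the direction `i` is the number `(λ_i - 1) / (λ_i + 1)` times the sum of the
standard deviations. (4) Hence the means of a Lipschitz function over the fibres are nearly equal,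
and with the concentration in the fibres it is concentrated in `K`. (5) Concentration on a constant
scale for all linear images is inherited by images of corank `r`, holds for the bodies at the bottom
of the construction, and implies the isoperimetric inequality for sets of half the volume, compared
with the central section orthogonal to the direction of the largest variance (`ImagesOfSections` of
the starting files).
-/

set_option autoImplicit false

namespace Pool.Agent.Results.MP_dc1397_gt.FibredBodies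

open MeasureTheory Set
open scoped ENNReal InnerProductSpace

/-- Euclidean space of dimension `n` -/
abbrev Euc (n : ℕ) : Type := EuclideanSpace ℝ (Fin n)

/-- convex body `D = -D`: compact, convex, symmetric, with nonempty interior -/
structure SymmetricBody {k : ℕ} (D : Set (Euc k)) : Prop where
  conv : Convex ℝ D
  comp : IsCompact D
  int : (interior D).Nonempty
  symm : ∀ x ∈ D, -x ∈ D

/-- `a (s₊)^p + b (s₋)^p`, where `a, b ∈ [0, ∞]` and `∞ · 0 = 0` -/
noncomputable def power (p : ℝ) (a b : ℝ≥0∞) (s : ℝ) : ℝ≥0∞ :=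
  a * ENNReal.ofReal (max s 0 ^ p) + b * ENNReal.ofReal (max (-s) 0 ^ p)

/-- `K = {x | ⟪v_i, x⟫ ∈ I_i for all i < N}` with closed intervals `I_i` (which may be unbounded),
`N ≤ m + q`: intersections of `m + q` halfspaces or slabs in `ℝ^m` -/
def Slabs (q : ℕ) {m : ℕ} (K : Set (Euc m)) : Prop :=
  ∃ (N : ℕ) (v : Fin N → Euc m) (I : Fin N → Set ℝ), N ≤ m + q ∧ (∀ i, IsClosed (I i)) ∧
    (∀ i, (I i).OrdConnected) ∧ K = {x | ∀ i, ⟪v i, x⟫_ℝ ∈ I i}

/-- `K = {x | ∑_{i < N} (a_i ⟪v_i, x⟫₊^p + b_i ⟪v_i, x⟫₋^p) ≤ 1}`, `a_i, b_i ∈ [0, ∞]`, `N ≤ m + q` -/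
def Sums (p : ℝ) (q : ℕ) {m : ℕ} (K : Set (Euc m)) : Prop :=
  ∃ (N : ℕ) (v : Fin N → Euc m) (a b : Fin N → ℝ≥0∞), N ≤ m + q ∧
    K = {x | ∑ i, power p (a i) (b i) ⟪v i, x⟫_ℝ ≤ 1}

/-- `K = {x | ∑_{j < k_i} |ℓ_ij(x)|^{e_ij} ≤ 1 for all i < M}`, `e_ij ≥ 2`, `∑ k_i ≤ m + q` -/
def Powers (q : ℕ) {m : ℕ} (K : Set (Euc m)) : Prop :=
  ∃ (M : ℕ) (k : Fin M → ℕ) (e : ∀ i, Fin (k i) → ℝ) (l : ∀ i, Fin (k i) → (Euc m →ₗ[ℝ] ℝ)),
    (∀ i, 1 ≤ k i) ∧ ∑ i, k i ≤ m + q ∧ (∀ i j, 2 ≤ e i j) ∧
    K = {x | ∀ i, ∑ j, |l i j x| ^ e i j ≤ 1}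

/-- `K = {x | Q_i x ∈ D_i for all i < M}` with linear maps `Q_i : ℝ^m → ℝ^{k_i}` and symmetric convex
bodies `D_i`, `k_i ≤ B`, `∑ k_i ≤ m + q` -/
def Blocks (B q : ℕ) {m : ℕ} (K : Set (Euc m)) : Prop :=
  ∃ (M : ℕ) (k : Fin M → ℕ) (Q : ∀ i, Euc m →ₗ[ℝ] Euc (k i)) (D : ∀ i, Set (Euc (k i))),
    (∀ i, k i ≤ B) ∧ ∑ i, k i ≤ m + q ∧ (∀ i, SymmetricBody (D i)) ∧ K = {x | ∀ i, Q i x ∈ D i}

/-- the bodies at the bottom of the construction: bounded, with nonempty interior, and of one of the
four kinds `Slabs`, `Sums`, `Powers`, `Blocks`, with at most `q` functionals more than the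
dimension (for instance cubes, Euclidean balls, simplices, polytopes with few facets) -/
structure Section (B q : ℕ) (p : ℝ) {m : ℕ} (K : Set (Euc m)) : Prop where
  bdd : Bornology.IsBounded K
  int : (interior K).Nonempty
  rep : Slabs q K ∨ Sums p q K ∨ Powers q K ∨ Blocks B q K

/-- the uniform probability measure on `K` -/
noncomputable def unif {n : ℕ} (K : Set (Euc n)) : Measure (Euc n) :=
  (volume K)⁻¹ • volume.restrict K

/-- `C₀` and `C₁` are diagonally related: in the coordinates given by some linear bijection `A` of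
`ℝ^N`, `C₁` is the image of `C₀` under a diagonal matrix with positive entries `λ_i` and a
translation, that is `C₁ = {v + A⁻¹ diag(λ) A x | x ∈ C₀}`, and the coordinates `(A x)_i` of a point
`x` uniformly distributed in `C₀` are uncorrelated. For example, `C₀` and `C₁` may be homothetic, or
boxes with parallel edges, or arbitrary ellipsoids. -/
def Related {N : ℕ} (C₀ C₁ : Set (Euc N)) : Prop :=
  ∃ (A : Euc N ≃ₗ[ℝ] Euc N) (v : Euc N) (lam : Fin N → ℝ), (∀ i, 0 < lam i) ∧
    C₁ = (fun x => v + A.symm (WithLp.toLp 2 fun i => lam i * A x i)) '' C₀ ∧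
    ∀ i j, i ≠ j → ∫ x, A x i * A x j ∂(unif C₀) =
      (∫ x, A x i ∂(unif C₀)) * ∫ x, A x j ∂(unif C₀)

/-- the fibre over `t` of the set `K ⊂ ℝⁿ ≅ ℝ^N × ℝ^d` -/
def fibre {N d n : ℕ} (e : (Euc N × Euc d) ≃ₗ[ℝ] Euc n) (K : Set (Euc n)) (t : Euc d) :
    Set (Euc N) := {x | e (x, t) ∈ K}

/-- The class of bodies. It contains the bodies `Section B q p`, and bodies of depth `h + 1` are
obtained from those of depth `h` by images under affine maps with kernels of dimension at most `r`
(`image`) and by fibration over a base of dimension at most `d` (`fibred`): all convex bodies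
`K ⊂ ℝ^N × ℝ^j`, `j ≤ d`, whose fibres over the points of `ℝ^j` are, except for those of volume
zero, of depth `h` and diagonally related to each other. -/
inductive Tower (q B : ℕ) (p : ℝ) (d r : ℕ) : ℕ → ∀ {n : ℕ}, Set (Euc n) → Prop
  | base {m : ℕ} {K : Set (Euc m)} : Section B q p K → Tower q B p d r 0 K
  | up {h n : ℕ} {K : Set (Euc n)} : Tower q B p d r h K → Tower q B p d r (h + 1) K
  | image {h m n : ℕ} {K : Set (Euc m)} (T : Euc m →ᵃ[ℝ] Euc n) : m ≤ n + r →
      Function.Surjective T → Tower q B p d r h K → Tower q B p d r (h + 1) (T '' K)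
  | fibred {h N j n : ℕ} {K : Set (Euc n)} (e : (Euc N × Euc j) ≃ₗ[ℝ] Euc n) : j ≤ d →
      IsCompact K → Convex ℝ K → (interior K).Nonempty →
      (∀ t, volume (fibre e K t) ≠ 0 → Tower q B p d r h (fibre e K t)) →
      (∀ s t, volume (fibre e K s) ≠ 0 → volume (fibre e K t) ≠ 0 →
        Related (fibre e K s) (fibre e K t)) → Tower q B p d r (h + 1) K

/-- the Lebesgue measure of a Euclidean space -/
noncomputable def lebesgue (F : Type) [NormedAddCommGroup F] [InnerProductSpace ℝ F]
    [FiniteDimensional ℝ F] [MeasurableSpace F] [BorelSpace F] : Measure F := volume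

/-- the Lebesgue measure (of the Euclidean space `W`) of the section `Ω ∩ W` by a subspace `W` -/
noncomputable def areaIn {F : Type} [NormedAddCommGroup F] [InnerProductSpace ℝ F]
    [FiniteDimensional ℝ F] [MeasurableSpace F] [BorelSpace F] (W : Submodule ℝ F) (Ω : Set F) :
    ℝ≥0∞ := lebesgue W {y : W | (y : F) ∈ Ω}

section defs

variable {κ : Type} [Fintype κ]

open Classical in
/-- divergence of a vector field on `ℝ^κ` -/
noncomputable def divergence (X : EuclideanSpace ℝ κ → EuclideanSpace ℝ κ)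
    (x : EuclideanSpace ℝ κ) : ℝ :=
  ∑ i, fderiv ℝ X x (EuclideanSpace.single i 1) i

/-- `C¹` vector fields with compact support in `Ω` and `‖X‖ ≤ 1` -/
structure Test (Ω : Set (EuclideanSpace ℝ κ)) (X : EuclideanSpace ℝ κ → EuclideanSpace ℝ κ) :
    Prop where
  diff : ContDiff ℝ 1 X
  comp : HasCompactSupport X
  sub : tsupport X ⊆ Ω
  le : ∀ x, ‖X x‖ ≤ 1

/-- the (De Giorgi) perimeter `P(E; Ω)` of `E` relative to the open set `Ω` -/
noncomputable def perimeter (E Ω : Set (EuclideanSpace ℝ κ)) : ℝ≥0∞ :=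
  ⨆ (X : EuclideanSpace ℝ κ → EuclideanSpace ℝ κ) (_ : Test Ω X),
    ENNReal.ofReal (∫ x in E, divergence X x)

/-- the area (Lebesgue measure in the hyperplane `a^⊥`) of the central section of `Ω` by `a^⊥` -/
noncomputable def sectionArea (Ω : Set (EuclideanSpace ℝ κ)) (a : EuclideanSpace ℝ κ) : ℝ≥0∞ :=
  areaIn (Submodule.span ℝ {a})ᗮ Ω

/-- some central hyperplane section has area at most `C P(E; Ω)` for every measurable `E ⊆ Ω` with
`|E| = |Ω| / 2` -/
def HyperplaneBound (C : ℝ) (Ω : Set (EuclideanSpace ℝ κ)) : Prop :=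
  ∃ a : EuclideanSpace ℝ κ, a ≠ 0 ∧ ∀ E : Set (EuclideanSpace ℝ κ), MeasurableSet E → E ⊆ Ω →
    volume E = volume Ω / 2 → sectionArea Ω a ≤ ENNReal.ofReal C * perimeter E Ω

/-- the perimeter is the one used in the proof -/
theorem perimeter_eq (E Ω : Set (EuclideanSpace ℝ κ)) :
    Pool.Agent.W695.KH.per E Ω = perimeter E Ω := by
  unfold perimeter Pool.Agent.W695.KH.per
  refine iSup_congr fun X => ?_
  refine iSup_congr_Prop ⟨fun h => ⟨h.1, h.2.1, h.2.2.1, h.2.2.2⟩,
    fun h => ⟨h.diff, h.comp, h.sub, h.le⟩⟩ fun _ => rfl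

end defs

theorem base_of {B q : ℕ} {p : ℝ} {m : ℕ} {K : Set (Euc m)} (h : Section B q p K) :
    Pool.Agent.Y506.PV.Base q B p K := by
  refine ⟨h.bdd, h.int, ?_⟩
  rcases h.rep with h | h | h | h
  · obtain ⟨N, v, I, hN, hI1, hI2, hK⟩ := h
    exact Or.inl ⟨N, hN, v, I, hI1, hI2, hK⟩
  · obtain ⟨N, v, a, b, hN, hK⟩ := h
    exact Or.inr (Or.inl ⟨N, hN, v, a, b, hK⟩)
  · obtain ⟨M, k, e, l, hk, hs, he, hK⟩ := h
    refine Or.inr (Or.inr (Or.inl ⟨M, k, hs, hk, e, fun i j =>
      LinearMap.toContinuousLinearMap (l i j), he, ?_⟩))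
    rw [hK]
    rfl
  · obtain ⟨M, k, Q, D, hk, hs, hD, hK⟩ := h
    refine Or.inr (Or.inr (Or.inr ⟨M, k, hs, hk, fun i => LinearMap.toContinuousLinearMap (Q i),
      D, fun i => ⟨(hD i).comp.measurableSet, (hD i).conv, (hD i).comp.isBounded, (hD i).symm,
        (hD i).int⟩, fun i => (hD i).comp.isClosed, ?_⟩))
    rw [hK]
    rfl

theorem rel_of {N : ℕ} {C₀ C₁ : Set (Euc N)} (h : Related C₀ C₁) :
    Pool.Agent.R754.KG.Rel C₀ C₁ := by
  obtain ⟨A, v, lam, h1, h2, h3⟩ := h
  exact ⟨A, v, lam, h1, h2, h3⟩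

theorem of_rel {N : ℕ} {C₀ C₁ : Set (Euc N)} (h : Pool.Agent.R754.KG.Rel C₀ C₁) :
    Related C₀ C₁ := by
  obtain ⟨A, v, lam, h1⟩ := h
  exact ⟨A, v, lam, h1.pos, h1.eq, h1.unc⟩

theorem cl_of {q B : ℕ} {p : ℝ} {d r h n : ℕ} {K : Set (Euc n)} (H : Tower q B p d r h K) :
    Pool.Agent.R754.KG.Cl q B p d r h n K := by
  induction H with
  | base hK => exact .base _ _ (base_of hK)
  | up _ ih => exact .up _ _ _ ih
  | image T hm hT _ ih =>
    have hTL : ∀ x, T x = T 0 + T.linear x := fun x => by
      have h := T.map_vadd 0 x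
      rw [vadd_eq_add, add_zero] at h
      rw [h, vadd_eq_add, add_comm]
    have hA : Function.Surjective T.linear := by
      rwa [AffineMap.linear_surjective_iff]
    have h2 := Pool.Agent.R754.KG.Cl.image _ _ _ _ T.linear (T 0) hm hA ih
    rw [image_congr fun x _ => hTL x]
    exact h2
  | fibred e hj hc hcv hi _ hrel ih =>
    exact .fibred _ _ _ _ _ e hj hc hcv hi ih fun s t hs ht => rel_of (hrel s t hs ht)

/-- **The hyperplane conjecture for symmetric fibred bodies.** For all `q, B, d, r, h` and `p ≥ 1`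
there is a constant `C > 0` such that for all `n ≥ 1` and all symmetric bodies `K ⊂ ℝⁿ` of the class
`Tower q B p d r h`, the interior `Ω` of `K` has a central hyperplane section `Ω ∩ a^⊥` with
`H_{n-1}(Ω ∩ a^⊥) ≤ C P(E; Ω)` for every measurable `E ⊆ Ω` with `|E| = |Ω| / 2`. -/
theorem result : ∀ (q B d r h : ℕ) (p : ℝ), 1 ≤ p → ∃ C : ℝ, 0 < C ∧
    ∀ (n : ℕ) (K : Set (Euc n)), 1 ≤ n → Tower q B p d r h K → (∀ x ∈ K, -x ∈ K) →
    HyperplaneBound C (interior K) := by
  intro q B d r h p hp
  obtain ⟨c, hc, H⟩ := Pool.Agent.R754.KG.cl_star q B p hp d r h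
  obtain ⟨C, hC, H'⟩ := Pool.Agent.Y151.PV.hyp
  refine ⟨C * c, by positivity, fun n P hn hK hs => ?_⟩
  obtain ⟨h1, h2, h3, h4⟩ := H n P (cl_of hK)
  have hcl : closure (interior P) = P := by
    rw [h2.closure_interior_eq_closure_of_nonempty_interior h3, h1.isClosed.closure_eq]
  have hsi : ∀ x ∈ interior P, -x ∈ interior P := by
    intro x hx
    have hop : IsOpen ((fun y => -y) ⁻¹' interior P) := isOpen_interior.preimage continuous_neg
    have hsub : (fun y => -y) ⁻¹' interior P ⊆ P := by
      intro y hy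
      have := hs _ (interior_subset hy)
      rwa [neg_neg] at this
    exact interior_maximal hsub hop (by simpa using hx)
  have h0 : (0 : Euc n) ∈ interior P := by
    obtain ⟨x, hx⟩ := h3
    have h := h2.interior hx (hsi x hx) (by norm_num : (0 : ℝ) ≤ 1 / 2)
      (by norm_num : (0 : ℝ) ≤ 1 / 2) (by norm_num)
    rwa [smul_neg, add_neg_cancel] at h
  obtain ⟨a, ha, h⟩ := H' n hn (interior P) isOpen_interior h2.interior
    (h1.isBounded.subset interior_subset) h0 hsi c hc (by rw [hcl]; exact h4)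
  refine ⟨a, ha, fun E hE hEΩ hvol => ?_⟩
  rw [← perimeter_eq]
  by_cases hp : Pool.Agent.W695.KH.per E (interior P) = ⊤
  · rw [hp, ENNReal.mul_top (ENNReal.ofReal_pos.2 (by positivity)).ne']
    exact le_top
  · refine (h E hE hEΩ hvol _ (Pool.Agent.W695.KH.perLe_toReal E _ hp)).trans (le_of_eq ?_)
    rw [ENNReal.ofReal_mul (by positivity), ENNReal.ofReal_toReal hp]

/-! ### special cases -/

/-- ellipsoids: images of the unit ball under affine bijections -/
def IsEllipsoid {N : ℕ} (C : Set (Euc N)) : Prop :=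
  ∃ (m : Euc N) (M : Euc N ≃ₗ[ℝ] Euc N), C = (fun x => m + M x) '' Metric.closedBall 0 1

/-- boxes with edges parallel to the axes -/
def IsBox {N : ℕ} (C : Set (Euc N)) : Prop :=
  ∃ a b : Fin N → ℝ, (∀ i, a i < b i) ∧ C = {x | ∀ i, a i ≤ x i ∧ x i ≤ b i}

theorem ball_section {N : ℕ} : Section 0 0 2 (Metric.closedBall (0 : Euc N) 1) := by
  refine ⟨Metric.isBounded_closedBall, ?_, Or.inr (Or.inl ⟨N, fun i => EuclideanSpace.single i 1,
    fun _ => 1, fun _ => 1, le_rfl, ?_⟩)⟩
  · rw [interior_closedBall _ one_ne_zero]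
    exact ⟨0, by simp⟩
  · ext x
    have h1 : ∀ s : ℝ, power 2 1 1 s = ENNReal.ofReal (s ^ 2) := by
      intro s
      unfold power
      rw [one_mul, one_mul, ← ENNReal.ofReal_add (by positivity) (by positivity)]
      congr 1
      rcases le_total 0 s with hs | hs
      · rw [max_eq_left hs, max_eq_right (by linarith)]
        norm_num
      · rw [max_eq_right hs, max_eq_left (by linarith)]
        norm_num
    have h2 : ∑ i : Fin N, power 2 1 1 ⟪EuclideanSpace.single i (1 : ℝ), x⟫_ℝ =
        ENNReal.ofReal (‖x‖ ^ 2) := by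
      rw [EuclideanSpace.real_norm_sq_eq, ENNReal.ofReal_sum_of_nonneg fun i _ => sq_nonneg _]
      refine Finset.sum_congr rfl fun i _ => ?_
      rw [h1, EuclideanSpace.inner_single_left]
      simp
    rw [mem_closedBall_zero_iff, mem_ofPred_eq, h2, ENNReal.ofReal_le_one]
    exact (sq_le_one_iff₀ (norm_nonneg x)).symm

/-- **Ellipsoidal fibres.** For every `d` there is `c > 0` such that all symmetric convex bodies
`K ⊂ ℝⁿ ≅ ℝ^N × ℝ^d`, of any dimension, whose fibres over the points of `ℝ^d` are ellipsoids (or of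
volume zero), satisfy the inequality. -/
theorem ellipsoids : ∀ d : ℕ, ∃ c : ℝ, 0 < c ∧ ∀ (N n : ℕ) (e : (Euc N × Euc d) ≃ₗ[ℝ] Euc n)
    (K : Set (Euc n)), 1 ≤ n → IsCompact K → Convex ℝ K → (interior K).Nonempty →
    (∀ x ∈ K, -x ∈ K) → (∀ t, volume (fibre e K t) = 0 ∨ IsEllipsoid (fibre e K t)) →
    HyperplaneBound c (interior K) := by
  intro d
  obtain ⟨c, hc, H⟩ := result 0 0 d 0 2 2 (by norm_num)
  refine ⟨c, hc, fun N n e K hn h1 h2 h3 hs h4 => H n K hn (.fibred e le_rfl h1 h2 h3 ?_ ?_) hs⟩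
  · intro t ht
    obtain ⟨m, M, hC⟩ := (h4 t).resolve_left ht
    have h5 := Tower.image (q := 0) (B := 0) (p := 2) (d := d) (r := 0) (h := 0)
      (M.toLinearMap.toAffineMap + AffineMap.const ℝ (Euc N) m) le_rfl (fun y => by
        obtain ⟨z, hz⟩ := M.surjective (y - m)
        exact ⟨z, by simp [hz]⟩) (.base ball_section)
    rw [hC]
    convert h5 using 1
    refine image_congr fun x _ => ?_
    simp [add_comm]
  · intro s t hs ht
    obtain ⟨m, M, hC⟩ := (h4 s).resolve_left hs
    obtain ⟨m', M', hC'⟩ := (h4 t).resolve_left ht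
    rw [hC, hC']
    exact of_rel (Pool.Agent.R754.KG.rel_ell m m' M M')

theorem box_section {N : ℕ} {C : Set (Euc N)} (h : IsBox C) : Section 0 0 1 C := by
  obtain ⟨a, b, hab, rfl⟩ := h
  refine ⟨Pool.Agent.R754.KG.bx_bdd a b, ?_, Or.inl ⟨N, fun i => EuclideanSpace.single i 1,
    fun i => Icc (a i) (b i), le_rfl, fun i => isClosed_Icc, fun i => ordConnected_Icc, ?_⟩⟩
  · have hop : IsOpen {x : Euc N | ∀ i, a i < x i ∧ x i < b i} := by
      have : {x : Euc N | ∀ i, a i < x i ∧ x i < b i} = ⋂ i, {x : Euc N | a i < x i ∧ x i < b i} := by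
        ext x
        simp
      rw [this]
      refine isOpen_iInter_of_finite fun i => ?_
      have hc : Continuous fun x : Euc N => x i := by fun_prop
      exact (isOpen_lt continuous_const hc).inter (isOpen_lt hc continuous_const)
    refine ⟨WithLp.toLp 2 fun i => (a i + b i) / 2, interior_maximal ?_ hop ?_⟩
    · intro x hx i
      exact ⟨(hx i).1.le, (hx i).2.le⟩
    · intro i
      have := hab i
      constructor
      · simp only
        linarith
      · simp only
        linarith
  · ext x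
    simp only [mem_ofPred_eq, EuclideanSpace.inner_single_left, mem_Icc]
    simp

/-- **Boxes.** For every `d` there is `c > 0` such that all symmetric convex bodies
`K ⊂ ℝⁿ ≅ ℝ^N × ℝ^d`, of any dimension, whose fibres over the points of `ℝ^d` are boxes with edges parallel to the axes (or
of volume zero), satisfy the inequality. -/
theorem boxes : ∀ d : ℕ, ∃ c : ℝ, 0 < c ∧ ∀ (N n : ℕ) (e : (Euc N × Euc d) ≃ₗ[ℝ] Euc n)
    (K : Set (Euc n)), 1 ≤ n → IsCompact K → Convex ℝ K → (interior K).Nonempty →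
    (∀ x ∈ K, -x ∈ K) → (∀ t, volume (fibre e K t) = 0 ∨ IsBox (fibre e K t)) →
    HyperplaneBound c (interior K) := by
  intro d
  obtain ⟨c, hc, H⟩ := result 0 0 d 0 1 1 le_rfl
  refine ⟨c, hc, fun N n e K hn h1 h2 h3 hs h4 => H n K hn (.fibred e le_rfl h1 h2 h3 ?_ ?_) hs⟩
  · intro t ht
    exact .base (box_section ((h4 t).resolve_left ht))
  · intro s t hs ht
    obtain ⟨a, b, hab, hC⟩ := (h4 s).resolve_left hs
    obtain ⟨a', b', hab', hC'⟩ := (h4 t).resolve_left ht
    rw [hC] at hs
    rw [hC, hC']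
    exact of_rel (Pool.Agent.R754.KG.rel_bx hab hab' hs)

/-- **Intersections of cylinders.** For every `d` there is `c > 0` such that, for all `N` and all
symmetric compact convex sets `D_i ⊂ ℝ × ℝ^d`, `i < N`, the set `{(x, t) | (x_i, t) ∈ D_i for all i < N}` in
`ℝ^N × ℝ^d ≅ ℝⁿ` satisfies the inequality if it is compact (which it is for `N ≥ 1`) and has
nonempty interior. -/
theorem cylinders : ∀ d : ℕ, ∃ c : ℝ, 0 < c ∧ ∀ (N n : ℕ) (e : (Euc N × Euc d) ≃ₗ[ℝ] Euc n)
    (D : Fin N → Set (ℝ × Euc d)), 1 ≤ n → (∀ i, IsCompact (D i)) → (∀ i, Convex ℝ (D i)) →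
    (∀ i, ∀ z ∈ D i, -z ∈ D i) → IsCompact (e '' {z | ∀ i, (z.1 i, z.2) ∈ D i}) →
    (interior (e '' {z | ∀ i, (z.1 i, z.2) ∈ D i})).Nonempty →
    HyperplaneBound c (interior (e '' {z | ∀ i, (z.1 i, z.2) ∈ D i})) := by
  intro d
  obtain ⟨c, hc, H⟩ := boxes d
  refine ⟨c, hc, fun N n e D hn hD hcv hsym hcp hint => H N n e _ hn hcp ?_ hint ?_ fun t => ?_⟩
  · refine Convex.is_linear_image ?_ e.toLinearMap.isLinear
    intro z hz z' hz' a b ha hb hab i
    exact hcv i (hz i) (hz' i) ha hb hab
  · rintro _ ⟨z, hz, rfl⟩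
    exact ⟨-z, fun i => hsym i _ (hz i), map_neg e z⟩
  · by_cases ht : volume (fibre e (e '' {z | ∀ i, (z.1 i, z.2) ∈ D i}) t) = 0
    · exact Or.inl ht
    refine Or.inr ?_
    have hf : fibre e (e '' {z | ∀ i, (z.1 i, z.2) ∈ D i}) t = {x | ∀ i, (x i, t) ∈ D i} := by
      ext x
      unfold fibre
      rw [mem_ofPred_eq, e.injective.mem_set_image]
      rfl
    rw [hf] at ht ⊢
    -- the intervals
    have hcl : ∀ i, IsCompact {s : ℝ | (s, t) ∈ D i} := by
      intro i
      have h1 : IsClosed {s : ℝ | (s, t) ∈ D i} :=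
        (hD i).isClosed.preimage (by fun_prop : Continuous fun s : ℝ => (s, t))
      have h2 : Bornology.IsBounded {s : ℝ | (s, t) ∈ D i} :=
        (hD i).isBounded.image_fst.subset fun s hs => ⟨(s, t), hs, rfl⟩
      exact Metric.isCompact_of_isClosed_isBounded h1 h2
    have hconv : ∀ i, Convex ℝ {s : ℝ | (s, t) ∈ D i} := by
      intro i s hs s' hs' a b ha hb hab
      have h1 := hcv i hs hs' ha hb hab
      have h2 : a • (s, t) + b • (s', t) = (a • s + b • s', t) := by
        refine Prod.ext rfl ?_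
        change a • t + b • t = t
        rw [← add_smul, hab, one_smul]
      rw [h2] at h1
      exact h1
    have hcvx : Convex ℝ {x : Euc N | ∀ i, (x i, t) ∈ D i} := by
      intro x hx y hy a b ha hb hab i
      exact hconv i (hx i) (hy i) ha hb hab
    have hint2 : (interior {x : Euc N | ∀ i, (x i, t) ∈ D i}).Nonempty := by
      by_contra hne
      rw [not_nonempty_iff_eq_empty] at hne
      have h1 := hcvx.addHaar_frontier (volume : Measure (Euc N))
      have h2 : {x : Euc N | ∀ i, (x i, t) ∈ D i} ⊆ frontier {x : Euc N | ∀ i, (x i, t) ∈ D i} := by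
        intro x hx
        rw [frontier, hne, sdiff_empty]
        exact subset_closure hx
      exact ht (measure_mono_null h2 h1)
    obtain ⟨x0, hx0⟩ := hint2
    obtain ⟨ε, hε, hball⟩ := Metric.isOpen_iff.1 isOpen_interior x0 hx0
    have hmem : ∀ (s : ℝ), |s| < ε → ∀ i, (x0 i + s, t) ∈ D i := by
      intro s hs i
      have h1 : x0 + EuclideanSpace.single i s ∈ Metric.ball x0 ε := by
        rw [Metric.mem_ball, dist_self_add_left]
        simpa using hs
      have h2 := interior_subset (hball h1) i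
      simpa using h2
    have hne : ∀ i, {s : ℝ | (s, t) ∈ D i}.Nonempty := fun i =>
      ⟨x0 i + 0, hmem 0 (by simpa using hε) i⟩
    refine ⟨fun i => sInf {s : ℝ | (s, t) ∈ D i}, fun i => sSup {s : ℝ | (s, t) ∈ D i},
      fun i => ?_, ?_⟩
    · have h1 : x0 i + -(ε / 2) ∈ {s : ℝ | (s, t) ∈ D i} :=
        hmem _ (by rw [abs_neg, abs_of_pos (by positivity)]; linarith) i
      have h2 : x0 i + ε / 2 ∈ {s : ℝ | (s, t) ∈ D i} :=
        hmem _ (by rw [abs_of_pos (by positivity)]; linarith) i
      have h3 := csInf_le (hcl i).bddBelow h1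
      have h4 := le_csSup (hcl i).bddAbove h2
      simp only
      linarith
    · ext x
      refine forall_congr' fun i => ?_
      have h1 : {s : ℝ | (s, t) ∈ D i} = Icc (sInf {s : ℝ | (s, t) ∈ D i})
          (sSup {s : ℝ | (s, t) ∈ D i}) :=
        eq_Icc_of_connected_compact ⟨hne i, (hconv i).isPreconnected⟩ (hcl i)
      change x i ∈ {s : ℝ | (s, t) ∈ D i} ↔ _
      constructor
      · intro hx
        rw [h1] at hx
        exact hx
      · intro hx
        rw [h1]
        exact hx

/-- **Homothetic fibres.** For every body `L` of the class, all symmetric convex bodies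
`K ⊂ ℝⁿ ≅ ℝ^N × ℝ^d` whose fibres over the points of `ℝ^d` are homothetic to `L` (or of volume
zero) satisfy the inequality, with a constant which depends only on the parameters of the class. -/
theorem homothetic : ∀ (q B d r h : ℕ) (p : ℝ), 1 ≤ p → ∃ c : ℝ, 0 < c ∧
    ∀ (N n : ℕ) (L : Set (Euc N)) (e : (Euc N × Euc d) ≃ₗ[ℝ] Euc n) (K : Set (Euc n)), 1 ≤ n →
    Tower q B p d r h L → IsCompact K → Convex ℝ K → (interior K).Nonempty →
    (∀ x ∈ K, -x ∈ K) → (∀ t, volume (fibre e K t) = 0 ∨
      ∃ (v : Euc N) (ρ : ℝ), 0 < ρ ∧ fibre e K t = (fun x => v + ρ • x) '' L) →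
    HyperplaneBound c (interior K) := by
  intro q B d r h p hp
  obtain ⟨c, hc, H⟩ := result q B d r (h + 1 + 1) p hp
  obtain ⟨κ, hκ, Hcl⟩ := Pool.Agent.R754.KG.cl_cc q B p hp d r (h + 1) 1 one_pos
  refine ⟨c, hc, fun N n L e K hn hL h1 h2 h3 hsym h4 => H n K hn ?_ hsym⟩
  have hT : ∀ t, volume (fibre e K t) ≠ 0 → Tower q B p d r (h + 1) (fibre e K t) := by
    intro t ht
    obtain ⟨v, ρ, hρ, hC⟩ := (h4 t).resolve_left ht
    have h5 := Tower.image (q := q) (B := B) (p := p) (d := d) (r := r) (h := h)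
      ((ρ • LinearMap.id : Euc N →ₗ[ℝ] Euc N).toAffineMap + AffineMap.const ℝ (Euc N) v)
      (Nat.le_add_right N r) (fun y => ⟨ρ⁻¹ • (y - v), by simp [smul_smul, hρ.ne']⟩) hL
    rw [hC]
    convert h5 using 1
    refine image_congr fun x _ => ?_
    simp [add_comm]
  refine .fibred e le_rfl h1 h2 h3 hT fun s t hs ht => ?_
  obtain ⟨g1, -, g3, -⟩ := Hcl _ _ (cl_of (hT s hs))
  obtain ⟨v, ρ, hρ, hC⟩ := (h4 s).resolve_left hs
  obtain ⟨v', ρ', hρ', hC'⟩ := (h4 t).resolve_left ht
  have key := Pool.Agent.R754.KG.rel_hom g1 g3 (v' - (ρ' / ρ) • v) (ρ' / ρ) (by positivity)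
  have e1 : fibre e K t = (fun x => (v' - (ρ' / ρ) • v) + (ρ' / ρ) • x) '' fibre e K s := by
    rw [hC, hC', image_image]
    refine image_congr fun x _ => ?_
    rw [smul_add, smul_smul, div_mul_cancel₀ _ hρ.ne']
    abel
  rw [← e1] at key
  exact of_rel key

end Pool.Agent.Results.MP_dc1397_gt.FibredBodies
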